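import Mathlib

set_option autoImplicit false

/-!
# Extrapolation of polynomials of degree `k` from `[-1/y, 1/y]` to `1`
-/

namespace Pool.Agent.K7.H73.KM

open Polynomial Polynomial.Chebyshev

/-- the weights of the extrapolation -/
noncomputable def lam (k : ℕ) (y : ℝ) (i : ℕ) : ℝ :=
  (Lagrange.basis (Finset.range (k + 1)) (node k) i).eval y

lemma sum_lam_eval {k : ℕ} (y : ℝ) {q : ℝ[X]} (hq : q.degree ≤ k) :
    ∑ i ∈ Finset.range (k + 1), lam k y i * q.eval (node k i) = q.eval y := by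
  have h1 : q.degree < (Finset.range (k + 1)).card := by
    rw [Finset.card_range]
    exact lt_of_le_of_lt hq (by exact_mod_cast Nat.lt_succ_self k)
  have h2 := Lagrange.eq_interpolate (strictAntiOn_node k).injOn h1
  conv_rhs => rw [h2]
  rw [Lagrange.interpolate_apply, eval_finsetSum]
  refine Finset.sum_congr rfl fun i _ => ?_
  rw [eval_mul, eval_C, mul_comm]
  rfl

/-- for polynomials of degree at most `k`, the value at `1` from the values in `[-1/y, 1/y]` -/
lemma sum_lam {k : ℕ} {y : ℝ} (hy : 0 < y) {p : ℝ[X]} (hp : p.natDegree ≤ k) :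
    ∑ i ∈ Finset.range (k + 1), lam k y i * p.eval (node k i / y) = p.eval 1 := by
  have h1 := sum_lam_eval (k := k) y (q := p.comp (C y⁻¹ * X)) (by
    refine degree_le_of_natDegree_le ?_
    refine natDegree_comp_le.trans ?_
    refine (Nat.mul_le_mul_left _ (natDegree_C_mul_le _ _)).trans ?_
    rw [natDegree_X, mul_one]
    exact hp)
  simp only [eval_comp, eval_mul, eval_C, eval_X] at h1
  rw [inv_mul_cancel₀ hy.ne'] at h1
  rw [← h1]
  refine Finset.sum_congr rfl fun i _ => ?_
  rw [div_eq_inv_mul]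

lemma lam_sign {k i : ℕ} (hi : i ≤ k) {y : ℝ} (hy : 1 ≤ y) : 0 ≤ (-1) ^ i * lam k y i := by
  unfold lam Lagrange.basis
  rw [eval_prod]
  have h1 : ∀ j ∈ (Finset.range (k + 1)).erase i,
      (Lagrange.basisDivisor (node k i) (node k j)).eval y =
        (node k i - node k j)⁻¹ * (y - node k j) := by
    intro j _
    simp [Lagrange.basisDivisor]
  rw [Finset.prod_congr rfl h1, Finset.prod_mul_distrib, Finset.prod_inv_distrib, ← mul_assoc]
  have h2 := zero_lt_prod_node_sub_node hi
  refine mul_nonneg ?_ (Finset.prod_nonneg fun j _ => ?_)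
  · have h3 : ((-1 : ℝ) ^ i) = ((-1) ^ i)⁻¹ := by
      rcases neg_one_pow_eq_or ℝ i with h | h <;> rw [h] <;> norm_num
    rw [h3, ← mul_inv]
    exact inv_nonneg.2 h2.le
  · have := (node_mem_Icc (n := k) (i := j)).2
    linarith

lemma sum_abs_lam {k : ℕ} (hk : 1 ≤ k) :
    ∑ i ∈ Finset.range (k + 1), |lam k (Real.cosh (1 / k)) i| = Real.cosh 1 := by
  have hy : 1 ≤ Real.cosh (1 / (k : ℝ)) := Real.one_le_cosh _
  have h1 := sum_lam_eval (k := k) (Real.cosh (1 / k)) (q := T ℝ k) (by
    rw [degree_T]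
    simp)
  rw [T_real_cosh] at h1
  have hk0 : (k : ℝ) ≠ 0 := by positivity
  have h2 : (((k : ℕ) : ℤ) : ℝ) * (1 / (k : ℝ)) = 1 := by
    push_cast
    field_simp
  rw [h2] at h1
  rw [← h1]
  refine Finset.sum_congr rfl fun i hi => ?_
  have hi' : i ≤ k := by
    have := Finset.mem_range.1 hi
    omega
  rw [eval_T_real_node (by simpa using hi'), mul_comm]
  have h3 := lam_sign hi' hy
  have h4 : |lam k (Real.cosh (1 / k)) i| = |(-1) ^ i * lam k (Real.cosh (1 / k)) i| := by
    rw [abs_mul, abs_pow, abs_neg, abs_one, one_pow, one_mul]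
  rw [h4, abs_of_nonneg h3]

end Pool.Agent.K7.H73.KM
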