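import Mathlib

set_option autoImplicit false

/-!
# Iterated majority of three under k-wise independent inputs: definitions
-/

namespace Pool.Agent.K7.H73.KM

/-- the value taken by at least two of three bits -/
def maj (a b c : Bool) : Bool := (a && b) || (a && c) || (b && c)

/-- the iterated majority of threes of the first `3 ^ h` bits of a sequence (three consecutive blocks) -/
def R : ℕ → (ℕ → Bool) → Bool
  | 0, x => x 0
  | h + 1, x => maj (R h x) (R h fun i => x (3 ^ h + i)) (R h fun i => x (2 * 3 ^ h + i))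

/-- `n` bits, continued by zeros -/
def ext {n : ℕ} (x : Fin n → Bool) (i : ℕ) : Bool := if h : i < n then x ⟨i, h⟩ else false

/-- the iterated majority `R_h : {0,1}^(3 ^ h) → {0,1}` -/
def Rh (h : ℕ) (x : Fin (3 ^ h) → Bool) : Bool := R h (ext x)

open Classical in
/-- the probability of the event `E` under the distribution `Q` -/
noncomputable def prob {n : ℕ} (Q : (Fin n → Bool) → ℝ) (E : (Fin n → Bool) → Prop) : ℝ :=
  ∑ x, if E x then Q x else 0

/-- `𝒜(n, k, 1/2)`: the distributions on `{0,1}^n` with `Q(X_i = 1) = 1/2` for every `i` such that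
every set of at most `k` coordinates is mutually independent -/
structure A (n k : ℕ) (Q : (Fin n → Bool) → ℝ) : Prop where
  nonneg : ∀ x, 0 ≤ Q x
  total : ∑ x, Q x = 1
  half : ∀ i, prob Q (fun x => x i = true) = 1 / 2
  indep : ∀ S : Finset (Fin n), S.card ≤ k → ∀ a : Fin n → Bool,
    prob Q (fun x => ∀ i ∈ S, x i = a i) = ∏ i ∈ S, prob Q (fun x => x i = a i)

/-- the values `Q(f = 1)` for `Q` in `𝒜(n, k, 1/2)` -/
def vals {n : ℕ} (f : (Fin n → Bool) → Bool) (k : ℕ) : Set ℝ :=
  {t | ∃ Q, A n k Q ∧ t = prob Q (fun x => f x = true)}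

/-- `ε^f(k, 1/2)`, the maximum minus the minimum of `Q(f = 1)` over `Q` in `𝒜(n, k, 1/2)` -/
noncomputable def eps {n : ℕ} (f : (Fin n → Bool) → Bool) (k : ℕ) : ℝ :=
  sSup (vals f k) - sInf (vals f k)

/-- `K₂` for the iterated majority of threes: the functions `k(n) ≥ 1` such that
`ε^{R_h}(k(3 ^ h), 1/2)` tends to zero -/
def KTwo : Set (ℕ → ℕ) :=
  {k | (∀ n, 1 ≤ k n) ∧
    Filter.Tendsto (fun h : ℕ => eps (Rh h) (k (3 ^ h))) Filter.atTop (nhds 0)}

/-! ## Basic facts -/

lemma prob_nonneg {n : ℕ} {Q : (Fin n → Bool) → ℝ} (h : ∀ x, 0 ≤ Q x) (E : (Fin n → Bool) → Prop) :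
    0 ≤ prob Q E := by
  classical
  exact Finset.sum_nonneg fun x _ => by split_ifs <;> simp [h x]

lemma prob_le_one {n : ℕ} {Q : (Fin n → Bool) → ℝ} (h : ∀ x, 0 ≤ Q x) (h1 : ∑ x, Q x = 1)
    (E : (Fin n → Bool) → Prop) : prob Q E ≤ 1 := by
  classical
  rw [← h1]
  exact Finset.sum_le_sum fun x _ => by split_ifs <;> simp [h x]

lemma prob_or {n : ℕ} {Q : (Fin n → Bool) → ℝ} {E F G : (Fin n → Bool) → Prop}
    (h : ∀ x, E x ↔ F x ∨ G x) (h' : ∀ x, ¬ (F x ∧ G x)) : prob Q E = prob Q F + prob Q G := by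
  classical
  unfold prob
  rw [← Finset.sum_add_distrib]
  refine Finset.sum_congr rfl fun x _ => ?_
  have h1 := h x
  have h2 := h' x
  by_cases hF : F x <;> by_cases hG : G x <;> simp_all

lemma prob_congr {n : ℕ} {Q : (Fin n → Bool) → ℝ} {E F : (Fin n → Bool) → Prop}
    (h : ∀ x, E x ↔ F x) : prob Q E = prob Q F := by
  have : E = F := funext fun x => propext (h x)
  rw [this]

lemma prob_true {n k : ℕ} {Q : (Fin n → Bool) → ℝ} (hQ : A n k Q) (i : Fin n) (b : Bool) :
    prob Q (fun x => x i = b) = 1 / 2 := by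
  cases b with
  | true => exact hQ.half i
  | false =>
    have h1 : prob Q (fun _ => True) = prob Q (fun x => x i = true) + prob Q (fun x => x i = false) :=
      prob_or (fun x => by cases x i <;> simp) (fun x => by cases x i <;> simp)
    have h2 : prob Q (fun _ => True) = 1 := by
      simp [prob, hQ.total]
    rw [hQ.half i, h2] at h1
    linarith

/-- the probability of a cylinder -/
lemma prob_cyl {n k : ℕ} {Q : (Fin n → Bool) → ℝ} (hQ : A n k Q) (S : Finset (Fin n))
    (hS : S.card ≤ k) (a : Fin n → Bool) :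
    prob Q (fun x => ∀ i ∈ S, x i = a i) = (1 / 2) ^ S.card := by
  rw [hQ.indep S hS a, Finset.prod_congr rfl fun i _ => prob_true hQ i (a i), Finset.prod_const]

/-- conversely -/
lemma A_of_cyl {n k : ℕ} {Q : (Fin n → Bool) → ℝ} (hk : 1 ≤ k) (h0 : ∀ x, 0 ≤ Q x)
    (h : ∀ S : Finset (Fin n), S.card ≤ k → ∀ a : Fin n → Bool,
      prob Q (fun x => ∀ i ∈ S, x i = a i) = (1 / 2) ^ S.card) : A n k Q := by
  have h1 : ∀ (i : Fin n) (b : Bool), prob Q (fun x => x i = b) = 1 / 2 := by
    intro i b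
    have := h {i} (by simpa using hk) (fun _ => b)
    simpa using this
  refine ⟨h0, ?_, fun i => h1 i true, fun S hS a => ?_⟩
  · have := h ∅ (by simp) (fun _ => true)
    simpa [prob] using this
  · rw [h S hS a, Finset.prod_congr rfl fun i _ => h1 i (a i), Finset.prod_const]

/-- a cylinder probability for a distribution with a product density -/
lemma sum_cyl {n : ℕ} (S : Finset (Fin n)) (a : Fin n → Bool) (g : Fin n → Bool → ℝ)
    (hg : ∀ i, g i true + g i false = 1) :
    prob (fun x => ∏ i, g i (x i)) (fun x => ∀ i ∈ S, x i = a i) = ∏ i ∈ S, g i (a i) := by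
  classical
  unfold prob
  refine (Finset.sum_congr rfl (g := fun x : Fin n → Bool =>
    ∏ i, (if i ∈ S ∧ x i ≠ a i then 0 else g i (x i))) fun x _ => ?_).trans ?_
  · by_cases h : ∀ i ∈ S, x i = a i
    · rw [if_pos h]
      refine Finset.prod_congr rfl fun i _ => ?_
      rw [if_neg]
      rintro ⟨h1, h2⟩
      exact h2 (h i h1)
    · rw [if_neg h]
      push Not at h
      obtain ⟨i, h1, h2⟩ := h
      symm
      apply Finset.prod_eq_zero (Finset.mem_univ i)
      rw [if_pos ⟨h1, h2⟩]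
  have h2 := Finset.prod_univ_sum (fun _ : Fin n => (Finset.univ : Finset Bool))
    (fun i b => if i ∈ S ∧ b ≠ a i then (0 : ℝ) else g i b)
  rw [Fintype.piFinset_univ] at h2
  rw [← h2, ← Finset.prod_subset (Finset.subset_univ S)]
  · refine Finset.prod_congr rfl fun i hi => ?_
    rw [Fintype.sum_bool]
    cases h : a i <;> simp [hi]
  · intro i _ hi
    rw [Fintype.sum_bool]
    simp [hi, hg i]

/-- the uniform distribution -/
noncomputable def unif (n : ℕ) (_ : Fin n → Bool) : ℝ := (1 / 2) ^ n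

lemma A_unif {n k : ℕ} (hk : 1 ≤ k) : A n k (unif n) := by
  refine A_of_cyl hk (fun x => by unfold unif; positivity) fun S _ a => ?_
  have h := sum_cyl S a (fun _ _ => (1 / 2 : ℝ)) (fun i => by norm_num)
  simp only [Finset.prod_const, Finset.card_univ, Fintype.card_fin] at h
  exact h

lemma vals_bdd {n : ℕ} (f : (Fin n → Bool) → Bool) (k : ℕ) :
    BddAbove (vals f k) ∧ BddBelow (vals f k) := by
  refine ⟨⟨1, ?_⟩, ⟨0, ?_⟩⟩
  · rintro t ⟨Q, hQ, rfl⟩
    exact prob_le_one hQ.nonneg hQ.total _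
  · rintro t ⟨Q, hQ, rfl⟩
    exact prob_nonneg hQ.nonneg _

lemma eps_nonneg {n k : ℕ} (hk : 1 ≤ k) (f : (Fin n → Bool) → Bool) : 0 ≤ eps f k := by
  have h1 : prob (unif n) (fun x => f x = true) ∈ vals f k := ⟨_, A_unif hk, rfl⟩
  have h2 := le_csSup (vals_bdd f k).1 h1
  have h3 := csInf_le (vals_bdd f k).2 h1
  unfold eps
  linarith

end Pool.Agent.K7.H73.KM
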