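import Pool.Agent.K7.H73.KM.Stab
import Pool.Agent.K7.H73.KM.Cheb

set_option autoImplicit false

/-!
# The lower bound
-/

namespace Pool.Agent.K7.H73.KM

open Polynomial Polynomial.Chebyshev

/-! ## The iteration -/

lemma abs_mm {s t : ℝ} (h : |s| ≤ t) : |mm s| ≤ mm t := by
  have h0 : 0 ≤ |s| := abs_nonneg s
  have h1 : |mm s| = mm |s| := by
    have : mm s = s * ((3 + s ^ 2) / 4) := by unfold mm; ring
    rw [this, abs_mul, abs_of_nonneg (a := (3 + s ^ 2) / 4) (by positivity)]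
    unfold mm
    rw [← sq_abs s]
    ring
  rw [h1]
  unfold mm
  have : |s| ^ 3 ≤ t ^ 3 := by gcongr
  linarith

lemma abs_iter {s t : ℝ} (h : |s| ≤ t) (j : ℕ) : |mm^[j] s| ≤ mm^[j] t := by
  induction j with
  | zero => exact h
  | succ j ih =>
    rw [Function.iterate_succ_apply', Function.iterate_succ_apply']
    exact abs_mm ih

lemma iter_mem {t : ℝ} (h0 : 0 ≤ t) (h1 : t ≤ 1) (j : ℕ) : 0 ≤ mm^[j] t ∧ mm^[j] t ≤ 1 := by
  induction j with
  | zero => exact ⟨h0, h1⟩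
  | succ j ih =>
    rw [Function.iterate_succ_apply']
    obtain ⟨i1, i2⟩ := ih
    generalize mm^[j] t = s at i1 i2
    unfold mm
    constructor
    · positivity
    · have : s ^ 3 ≤ 1 := pow_le_one₀ i1 i2
      linarith

lemma growth {t : ℝ} (h0 : 0 ≤ t) (h1 : t ≤ 1) (j : ℕ) :
    (3 / 2) ^ j * (1 - t) * (1 - 3 / 2 * (1 - mm^[j] t)) ≤ 1 - mm^[j] t := by
  induction j with
  | zero =>
    simp only [pow_zero, Function.iterate_zero, id, one_mul]
    nlinarith
  | succ j ih =>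
    rw [Function.iterate_succ_apply']
    obtain ⟨i1, i2⟩ := iter_mem h0 h1 j
    set e := 1 - mm^[j] t with he
    have he0 : 0 ≤ e := by linarith
    have he1 : e ≤ 1 := by linarith
    have hm : 1 - mm (mm^[j] t) = 3 / 2 * e - 3 / 4 * e ^ 2 + e ^ 3 / 4 := by
      have : mm^[j] t = 1 - e := by linarith
      rw [this]
      unfold mm
      ring
    rw [hm]
    set e' := 3 / 2 * e - 3 / 4 * e ^ 2 + e ^ 3 / 4 with he'
    have hee : e ≤ e' := by
      rw [he']
      nlinarith [mul_nonneg he0 (sub_nonneg.2 he1), pow_nonneg he0 3]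
    have hA : 0 ≤ (3 / 2 : ℝ) ^ j * (1 - t) := mul_nonneg (by positivity) (by linarith)
    have hs : (3 / 2 : ℝ) ^ (j + 1) * (1 - t) = 3 / 2 * ((3 / 2) ^ j * (1 - t)) := by
      rw [pow_succ]; ring
    rw [hs]
    set a := (3 / 2 : ℝ) ^ j * (1 - t) with ha
    by_cases hc : 1 - 3 / 2 * e' ≤ 0
    · have : 3 / 2 * a * (1 - 3 / 2 * e') ≤ 0 := mul_nonpos_of_nonneg_of_nonpos (by positivity) hc
      linarith
    · push Not at hc
      have hd : 0 < 1 - 3 / 2 * e := by linarith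
      have key : 3 / 2 * e * (1 - 3 / 2 * e') ≤ e' * (1 - 3 / 2 * e) := by
        have h5 : e' * (1 - 3 / 2 * e) - 3 / 2 * e * (1 - 3 / 2 * e') =
            3 / 2 * e * (e * (1 / 4 - 5 / 24 * e + e ^ 2 / 8)) := by
          rw [he']; ring
        have h6 : 0 ≤ 1 / 4 - 5 / 24 * e + e ^ 2 / 8 := by nlinarith [sq_nonneg e]
        have h7 : 0 ≤ 3 / 2 * e * (e * (1 / 4 - 5 / 24 * e + e ^ 2 / 8)) := by positivity
        linarith
      have h8 : 3 / 2 * a * (1 - 3 / 2 * e') * (1 - 3 / 2 * e) ≤ e' * (1 - 3 / 2 * e) := by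
        calc 3 / 2 * a * (1 - 3 / 2 * e') * (1 - 3 / 2 * e)
            = 3 / 2 * (1 - 3 / 2 * e') * (a * (1 - 3 / 2 * e)) := by ring
          _ ≤ 3 / 2 * (1 - 3 / 2 * e') * e :=
              mul_le_mul_of_nonneg_left ih (by linarith)
          _ = 3 / 2 * e * (1 - 3 / 2 * e') := by ring
          _ ≤ _ := key
      exact le_of_mul_le_mul_right h8 hd

lemma cosh_ge (x : ℝ) (hx : 0 ≤ x) : 1 + x ^ 2 / 2 ≤ Real.cosh x := by
  have h1 : Real.cosh x = 1 + 2 * Real.sinh (x / 2) ^ 2 := by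
    have h2 := Real.cosh_two_mul (x / 2)
    have h3 := Real.cosh_sq (x / 2)
    have h4 : 2 * (x / 2) = x := by ring
    rw [h4] at h2
    rw [h2, h3]
    ring
  have h5 : x / 2 ≤ Real.sinh (x / 2) := Real.self_le_sinh_iff.2 (by linarith)
  have h6 : (x / 2) ^ 2 ≤ Real.sinh (x / 2) ^ 2 := by gcongr
  rw [h1]
  linarith

/-- the noise stability is at most one half -/
lemma iter_le {h k : ℕ} (hk : 1 ≤ k) (hh : 4 * (k : ℝ) ^ 2 + 2 ≤ (3 / 2) ^ h) {r : ℝ}
    (hr : |r| ≤ 1 / Real.cosh (1 / k)) : |mm^[h] r| ≤ 1 / 2 := by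
  have hk0 : (0 : ℝ) < k := by exact_mod_cast hk
  have hy := cosh_ge (1 / (k : ℝ)) (by positivity)
  have hy1 : 1 ≤ Real.cosh (1 / (k : ℝ)) := Real.one_le_cosh _
  set y := Real.cosh (1 / (k : ℝ)) with hyd
  have h0 : 0 ≤ 1 / y := by positivity
  have h1 : 1 / y ≤ 1 := by
    rw [div_le_one (by linarith)]
    exact hy1
  refine (abs_iter hr h).trans ?_
  have hg := growth h0 h1 h
  have h2 : 1 / (2 * (k : ℝ) ^ 2 + 1) ≤ 1 - 1 / y := by
    have h3 : (2 * (k : ℝ) ^ 2 + 1) / (2 * (k : ℝ) ^ 2) ≤ y := by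
      refine le_trans (le_of_eq ?_) hy
      field_simp
    have h4 : 1 / y ≤ 2 * (k : ℝ) ^ 2 / (2 * (k : ℝ) ^ 2 + 1) := by
      rw [div_le_div_iff₀ (by linarith) (by positivity)]
      rw [div_le_iff₀ (by positivity)] at h3
      linarith
    have h5 : 2 * (k : ℝ) ^ 2 / (2 * (k : ℝ) ^ 2 + 1) = 1 - 1 / (2 * (k : ℝ) ^ 2 + 1) := by
      field_simp
      ring
    linarith
  have h6 : 2 ≤ (3 / 2 : ℝ) ^ h * (1 - 1 / y) := by
    calc (2 : ℝ) = (4 * (k : ℝ) ^ 2 + 2) * (1 / (2 * (k : ℝ) ^ 2 + 1)) := by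
          field_simp
          ring
      _ ≤ (3 / 2) ^ h * (1 - 1 / y) := by gcongr
  by_contra hc
  push Not at hc
  have h7 : 1 / 4 ≤ 1 - 3 / 2 * (1 - mm^[h] (1 / y)) := by linarith
  have h8 : 2 * (1 / 4) ≤ (3 / 2 : ℝ) ^ h * (1 - 1 / y) * (1 - 3 / 2 * (1 - mm^[h] (1 / y))) := by
    gcongr
  linarith

lemma cosh_one_le : Real.cosh 1 ≤ 1.5431 := by
  rw [Real.cosh_eq, Real.exp_neg]
  have h1 := Real.exp_one_lt_d9
  have h2 := Real.exp_one_gt_d9
  have h3 : (Real.exp 1)⁻¹ ≤ 0.36788 := by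
    rw [inv_le_comm₀ (Real.exp_pos 1) (by norm_num)]
    refine le_trans ?_ h2.le
    norm_num
  norm_num at h1 h3 ⊢
  linarith

/-! ## The distribution -/

lemma prob_lin {n : ℕ} {ι : Type} (s : Finset ι) (c : ι → ℝ) (f : ι → (Fin n → Bool) → ℝ)
    (g : (Fin n → Bool) → ℝ) (E : (Fin n → Bool) → Prop) :
    prob (fun x => g x - ∑ i ∈ s, c i * f i x) E = prob g E - ∑ i ∈ s, c i * prob (f i) E := by
  classical
  unfold prob
  simp only [Finset.mul_sum]
  rw [Finset.sum_comm, ← Finset.sum_sub_distrib]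
  refine Finset.sum_congr rfl fun x _ => ?_
  by_cases hx : E x
  · simp only [if_pos hx]
  · simp only [if_neg hx, mul_zero, Finset.sum_const_zero, sub_zero]

lemma K_one (b c : Bool) : K 1 b c = if b = c then 1 else 0 := by
  cases b <;> cases c <;> simp [K, sg]

lemma T_one {n : ℕ} (f : (Fin n → Bool) → ℝ) : T 1 f = f := by
  classical
  funext x
  unfold T
  rw [Finset.sum_eq_single x]
  · rw [Finset.prod_eq_one fun i _ => by rw [K_one, if_pos rfl], one_mul]
  · intro z _ hz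
    obtain ⟨i, hi⟩ := Function.ne_iff.1 hz
    rw [Finset.prod_eq_zero (Finset.mem_univ i), zero_mul]
    rw [K_one, if_neg (Ne.symm hi)]
  · intro h
    exact absurd (Finset.mem_univ x) h

/-- `G` is orthogonal to the functions of at most `k` bits -/
noncomputable def G (h k : ℕ) (x : Fin (3 ^ h) → Bool) : ℝ :=
  F h x - ∑ i ∈ Finset.range (k + 1),
    lam k (Real.cosh (1 / k)) i * T (node k i / Real.cosh (1 / k)) (F h) x

lemma abs_F (h : ℕ) (x : Fin (3 ^ h) → Bool) : |F h x| ≤ 1 := (abs_sg _).le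

lemma abs_node {k i : ℕ} : |node k i / Real.cosh (1 / k)| ≤ 1 / Real.cosh (1 / k) := by
  have hy : 0 < Real.cosh (1 / (k : ℝ)) := Real.cosh_pos _
  rw [abs_div, abs_of_pos hy]
  gcongr
  exact abs_le.2 (node_mem_Icc (n := k) (i := i))

lemma abs_G {h k : ℕ} (hk : 1 ≤ k) (x : Fin (3 ^ h) → Bool) : |G h k x| ≤ 1 + Real.cosh 1 := by
  unfold G
  refine (abs_sub _ _).trans ?_
  refine add_le_add (abs_F h x) ?_
  rw [← sum_abs_lam hk]
  refine (Finset.abs_sum_le_sum_abs _ _).trans ?_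
  refine Finset.sum_le_sum fun i _ => ?_
  rw [abs_mul]
  refine mul_le_of_le_one_right (abs_nonneg _) (abs_T_le ?_ (abs_F h) x)
  refine abs_node.trans ?_
  rw [div_le_one (Real.cosh_pos _)]
  exact Real.one_le_cosh _

lemma G_cyl {h k : ℕ} (S : Finset (Fin (3 ^ h))) (hS : S.card ≤ k) (a : Fin (3 ^ h) → Bool) :
    prob (G h k) (fun x => ∀ i ∈ S, x i = a i) = 0 := by
  have h1 := prob_lin (Finset.range (k + 1)) (lam k (Real.cosh (1 / k)))
    (fun i => T (node k i / Real.cosh (1 / k)) (F h)) (F h) (fun x => ∀ i ∈ S, x i = a i)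
  refine h1.trans ?_
  have h2 : prob (F h) (fun x => ∀ i ∈ S, x i = a i) =
      ∑ z, (∏ i ∈ S, K 1 (a i) (z i)) * F h z := by
    rw [← cyl_T, T_one]
  simp only [cyl_T]
  rw [h2, sub_eq_zero]
  simp only [Finset.mul_sum]
  rw [Finset.sum_comm]
  refine Finset.sum_congr rfl fun z _ => ?_
  have h3 : ∀ r : ℝ, (∏ i ∈ S, (C (1 / 2 : ℝ) + C (sg (a i) * sg (z i) / 2) * X)).eval r =
      ∏ i ∈ S, K r (a i) (z i) := by
    intro r
    rw [eval_prod]
    refine Finset.prod_congr rfl fun i _ => ?_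
    simp only [eval_add, eval_mul, eval_C, eval_X, K]
    ring
  have h4 := sum_lam (k := k) (y := Real.cosh (1 / k)) (Real.cosh_pos _)
    (p := ∏ i ∈ S, (C (1 / 2 : ℝ) + C (sg (a i) * sg (z i) / 2) * X)) (by
      refine (natDegree_prod_le _ _).trans ?_
      refine le_trans (Finset.sum_le_card_nsmul _ _ 1 fun i _ => ?_) (by simpa using hS)
      refine (natDegree_add_le _ _).trans ?_
      rw [natDegree_C]
      refine max_le (by omega) ?_
      refine (natDegree_C_mul_le _ _).trans natDegree_X_le)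
  simp only [h3] at h4
  rw [← h4, Finset.sum_mul]
  refine Finset.sum_congr rfl fun i _ => ?_
  ring

/-- the distribution -/
noncomputable def QQ (h k : ℕ) (x : Fin (3 ^ h) → Bool) : ℝ :=
  (1 / 2) ^ (3 ^ h) * (1 + G h k x / (1 + Real.cosh 1))

lemma prob_QQ (h k : ℕ) (E : (Fin (3 ^ h) → Bool) → Prop) :
    prob (QQ h k) E = prob (unif (3 ^ h)) E +
      (1 / 2) ^ (3 ^ h) / (1 + Real.cosh 1) * prob (G h k) E := by
  classical
  unfold prob
  rw [Finset.mul_sum, ← Finset.sum_add_distrib]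
  refine Finset.sum_congr rfl fun x _ => ?_
  by_cases hx : E x
  · simp only [if_pos hx, QQ, unif]
    ring
  · simp only [if_neg hx, mul_zero, add_zero]

lemma A_QQ {h k : ℕ} (hk : 1 ≤ k) : A (3 ^ h) k (QQ h k) := by
  have hc : 0 < 1 + Real.cosh 1 := by linarith [Real.cosh_pos 1]
  refine A_of_cyl hk (fun x => ?_) fun S hS a => ?_
  · unfold QQ
    have h1 := abs_le.1 (abs_G (h := h) hk x)
    have h2 : -1 ≤ G h k x / (1 + Real.cosh 1) := by
      rw [le_div_iff₀ hc]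
      linarith
    refine mul_nonneg (by positivity) (by linarith)
  · rw [prob_QQ, G_cyl S hS a, mul_zero, add_zero, prob_cyl (A_unif hk) S hS a]

lemma sum_G (h k : ℕ) : ∑ x, G h k x = 0 := by
  have := G_cyl (h := h) (k := k) ∅ (by simp) (fun _ => true)
  simpa [prob] using this

lemma sum_FG (h k : ℕ) : (1 / 2) ^ (3 ^ h) * ∑ x, F h x * G h k x =
    1 - ∑ i ∈ Finset.range (k + 1), lam k (Real.cosh (1 / k)) i *
      mm^[h] (node k i / Real.cosh (1 / k)) := by
  unfold G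
  simp only [mul_sub, Finset.sum_sub_distrib]
  have h1 : ∑ x, F h x * F h x = 2 ^ (3 ^ h) := by
    have : ∀ x : Fin (3 ^ h) → Bool, F h x * F h x = 1 := by
      intro x
      unfold F
      cases Rh h x <;> simp [sg]
    rw [Finset.sum_congr rfl fun x _ => this x]
    simp
  rw [h1]
  congr 1
  · rw [one_div, inv_pow]
    field_simp
  · simp only [Finset.mul_sum]
    rw [Finset.sum_comm]
    refine Finset.sum_congr rfl fun i _ => ?_
    rw [← stab]
    simp only [Finset.mul_sum]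
    refine Finset.sum_congr rfl fun x _ => ?_
    ring

lemma prob_G (h k : ℕ) : prob (G h k) (fun x => Rh h x = true) = (∑ x, F h x * G h k x) / 2 := by
  classical
  have h1 : prob (G h k) (fun x => Rh h x = true) = (∑ x, G h k x + ∑ x, F h x * G h k x) / 2 := by
    rw [← Finset.sum_add_distrib, Finset.sum_div]
    unfold prob
    refine Finset.sum_congr rfl fun x _ => ?_
    unfold F
    by_cases hx : Rh h x = true
    · simp [hx, sg]
    · have hx' : Rh h x = false := by simpa using hx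
      simp [hx', sg]
  rw [h1, sum_G, zero_add]

/-- the lower bound for `ε` -/
theorem le_eps (h k : ℕ) (hk : 1 ≤ k) (hh : 4 * (k : ℝ) ^ 2 + 2 ≤ (3 / 2) ^ h) :
    1 / 25 ≤ eps (Rh h) k := by
  have h1 : prob (QQ h k) (fun x => Rh h x = true) ≤ sSup (vals (Rh h) k) :=
    le_csSup (vals_bdd _ _).1 ⟨_, A_QQ hk, rfl⟩
  have h2 : sInf (vals (Rh h) k) ≤ prob (unif (3 ^ h)) (fun x => Rh h x = true) :=
    csInf_le (vals_bdd _ _).2 ⟨_, A_unif hk, rfl⟩
  have hc : 0 < 1 + Real.cosh 1 := by linarith [Real.cosh_pos 1]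
  have h3 : prob (QQ h k) (fun x => Rh h x = true) = prob (unif (3 ^ h)) (fun x => Rh h x = true) +
      (1 - ∑ i ∈ Finset.range (k + 1), lam k (Real.cosh (1 / k)) i *
        mm^[h] (node k i / Real.cosh (1 / k))) / (2 * (1 + Real.cosh 1)) := by
    rw [prob_QQ, prob_G, ← sum_FG]
    field_simp
  have h4 : |∑ i ∈ Finset.range (k + 1), lam k (Real.cosh (1 / k)) i *
        mm^[h] (node k i / Real.cosh (1 / k))| ≤ Real.cosh 1 * (1 / 2) := by
    refine (Finset.abs_sum_le_sum_abs _ _).trans ?_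
    rw [← sum_abs_lam hk, Finset.sum_mul]
    refine Finset.sum_le_sum fun i _ => ?_
    rw [abs_mul]
    exact mul_le_mul_of_nonneg_left (iter_le hk hh abs_node) (abs_nonneg _)
  have h5 := (abs_le.1 h4).2
  have h6 := cosh_one_le
  have h7 : 1 / 25 ≤ (1 - ∑ i ∈ Finset.range (k + 1), lam k (Real.cosh (1 / k)) i *
        mm^[h] (node k i / Real.cosh (1 / k))) / (2 * (1 + Real.cosh 1)) := by
    rw [le_div_iff₀ (by positivity)]
    have h8 : 1 / 25 * (2 * (1 + Real.cosh 1)) ≤ 1 - Real.cosh 1 * (1 / 2) := by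
      norm_num at h6 ⊢
      linarith
    linarith
  unfold eps
  linarith

end Pool.Agent.K7.H73.KM
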