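import Pool.Agent.K7.H73.KM.Defs

set_option autoImplicit false

/-!
# The noise stability of the iterated majority
-/

namespace Pool.Agent.K7.H73.KM

/-- the sign of a bit -/
def sg (b : Bool) : ℝ := if b then 1 else -1

/-- the kernel of a bit with correlation `r` -/
noncomputable def K (r : ℝ) (b c : Bool) : ℝ := (1 + r * (sg b * sg c)) / 2

/-- `b` before the sequence `x` -/
def cons (b : Bool) (x : ℕ → Bool) : ℕ → Bool
  | 0 => b
  | i + 1 => x i

/-- `n` terms of `x`, then `y` -/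
def app (n : ℕ) (x y : ℕ → Bool) (i : ℕ) : Bool := if i < n then x i else y (i - n)

/-- the average over `n` independent pairs of bits with correlation `r` -/
noncomputable def W (r : ℝ) : ℕ → ((ℕ → Bool) → (ℕ → Bool) → ℝ) → ℝ
  | 0, Φ => Φ (fun _ => false) (fun _ => false)
  | n + 1, Φ => ∑ b : Bool, ∑ c : Bool, K r b c / 2 * W r n fun x z => Φ (cons b x) (cons c z)

lemma app_zero (x y : ℕ → Bool) : app 0 x y = y := by
  funext i
  simp [app]

lemma app_succ (n : ℕ) (b : Bool) (x y : ℕ → Bool) :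
    app (n + 1) (cons b x) y = cons b (app n x y) := by
  funext i
  cases i with
  | zero => simp [app, cons]
  | succ i => simp [app, cons]

lemma W_add (r : ℝ) (n m : ℕ) : ∀ Φ : (ℕ → Bool) → (ℕ → Bool) → ℝ, W r (n + m) Φ =
    W r n fun x z => W r m fun x' z' => Φ (app n x x') (app n z z') := by
  induction n with
  | zero =>
    intro Φ
    simp only [Nat.zero_add, W, app_zero]
  | succ n ih =>
    intro Φ
    rw [Nat.succ_add]
    simp only [W, ih, app_succ]

lemma R_congr (h : ℕ) : ∀ x y : ℕ → Bool, (∀ i < 3 ^ h, x i = y i) → R h x = R h y := by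
  induction h with
  | zero =>
    intro x y hxy
    exact hxy 0 (by simp)
  | succ h ih =>
    intro x y hxy
    have h3 : 3 ^ (h + 1) = 3 * 3 ^ h := by ring
    simp only [R]
    rw [ih x y fun i hi => hxy i (by omega),
      ih (fun i => x (3 ^ h + i)) (fun i => y (3 ^ h + i)) fun i hi => hxy _ (by omega),
      ih (fun i => x (2 * 3 ^ h + i)) (fun i => y (2 * 3 ^ h + i)) fun i hi => hxy _ (by omega)]

lemma R_app (h : ℕ) (x x' x'' : ℕ → Bool) :
    R (h + 1) (app (3 ^ h) x (app (3 ^ h) x' x'')) = maj (R h x) (R h x') (R h x'') := by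
  simp only [R]
  congr 1
  · apply R_congr
    intro i hi
    simp [app, hi]
  · apply R_congr
    intro i hi
    simp [app, hi]
  · apply R_congr
    intro i hi
    have h1 : ¬ (2 * 3 ^ h + i < 3 ^ h) := by omega
    have h2 : ¬ (2 * 3 ^ h + i - 3 ^ h < 3 ^ h) := by omega
    have h3 : 2 * 3 ^ h + i - 3 ^ h - 3 ^ h = i := by omega
    simp [app, h1, h2, h3]

/-- the map on the correlations -/
noncomputable def mm (r : ℝ) : ℝ := (3 * r + r ^ 3) / 4

/-- the joint law of `R_h(x)` and `R_h(z)` -/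
lemma law (r : ℝ) (h : ℕ) : ∀ Ψ : Bool → Bool → ℝ,
    W r (3 ^ h) (fun x z => Ψ (R h x) (R h z)) =
      ∑ b : Bool, ∑ c : Bool, K (mm^[h] r) b c / 2 * Ψ b c := by
  induction h with
  | zero =>
    intro Ψ
    simp only [pow_zero, W, R, cons, Function.iterate_zero, id]
  | succ h ih =>
    intro Ψ
    have h3 : 3 ^ (h + 1) = 3 ^ h + (3 ^ h + 3 ^ h) := by ring
    rw [h3, W_add]
    simp only [W_add, R_app]
    have e1 : ∀ x z x' z' : ℕ → Bool, (W r (3 ^ h) fun x'' z'' =>
        Ψ (maj (R h x) (R h x') (R h x'')) (maj (R h z) (R h z') (R h z''))) =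
          ∑ b : Bool, ∑ c : Bool, K (mm^[h] r) b c / 2 *
            Ψ (maj (R h x) (R h x') b) (maj (R h z) (R h z') c) := by
      intro x z x' z'
      exact ih (fun b c => Ψ (maj (R h x) (R h x') b) (maj (R h z) (R h z') c))
    simp only [e1]
    have e2 : ∀ x z : ℕ → Bool, (W r (3 ^ h) fun x' z' =>
        ∑ b : Bool, ∑ c : Bool, K (mm^[h] r) b c / 2 *
            Ψ (maj (R h x) (R h x') b) (maj (R h z) (R h z') c)) =
          ∑ b' : Bool, ∑ c' : Bool, K (mm^[h] r) b' c' / 2 *
            ∑ b : Bool, ∑ c : Bool, K (mm^[h] r) b c / 2 *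
              Ψ (maj (R h x) b' b) (maj (R h z) c' c) := by
      intro x z
      exact ih (fun b' c' => ∑ b : Bool, ∑ c : Bool, K (mm^[h] r) b c / 2 *
              Ψ (maj (R h x) b' b) (maj (R h z) c' c))
    simp only [e2]
    rw [ih (fun b'' c'' => ∑ b' : Bool, ∑ c' : Bool, K (mm^[h] r) b' c' / 2 *
            ∑ b : Bool, ∑ c : Bool, K (mm^[h] r) b c / 2 *
              Ψ (maj b'' b' b) (maj c'' c' c)), Function.iterate_succ_apply']
    generalize mm^[h] r = s
    simp only [Fintype.sum_bool, maj, K, sg, mm, Bool.and_true, Bool.and_false, Bool.or_true,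
      Bool.or_false, Bool.false_or, Bool.or_self, if_true, if_false, Bool.false_eq_true]
    ring

lemma ext_cons {n : ℕ} (b : Bool) (x : Fin n → Bool) :
    ext (Fin.cons b x : Fin (n + 1) → Bool) = cons b (ext x) := by
  funext i
  cases i with
  | zero => simp [ext, cons]
  | succ i =>
    by_cases h : i < n
    · have h' : i + 1 < n + 1 := by omega
      simp only [ext, cons, h, h', dif_pos]
      exact Fin.cons_succ (α := fun _ => Bool) b x ⟨i, h⟩
    · have h' : ¬ (i + 1 < n + 1) := by omega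
      simp [ext, cons, h, h']

lemma sum_cons {n : ℕ} (f : (Fin (n + 1) → Bool) → ℝ) :
    ∑ x, f x = ∑ b : Bool, ∑ x : Fin n → Bool, f (Fin.cons b x) := by
  rw [← (Fin.consEquiv fun _ : Fin (n + 1) => Bool).sum_comp, Fintype.sum_prod_type]
  rfl

/-- the average as a sum -/
lemma W_eq (r : ℝ) (n : ℕ) : ∀ Φ : (ℕ → Bool) → (ℕ → Bool) → ℝ, W r n Φ =
    ∑ x : Fin n → Bool, ∑ z : Fin n → Bool, (∏ i, (K r (x i) (z i) / 2)) * Φ (ext x) (ext z) := by
  induction n with
  | zero =>
    intro Φ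
    have h1 : ∀ x : Fin 0 → Bool, ext x = fun _ => false := by
      intro x
      funext i
      simp [ext]
    simp [W, h1]
  | succ n ih =>
    intro Φ
    rw [sum_cons]
    simp only [W, ih]
    refine Finset.sum_congr rfl fun b _ => ?_
    have h1 : ∀ x : Fin n → Bool, (∑ z : Fin (n + 1) → Bool,
        (∏ i, (K r ((Fin.cons b x : Fin (n + 1) → Bool) i) (z i) / 2)) *
          Φ (ext (Fin.cons b x : Fin (n + 1) → Bool)) (ext z)) =
        ∑ c : Bool, ∑ z : Fin n → Bool, (K r b c / 2 * ∏ i, (K r (x i) (z i) / 2)) *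
          Φ (cons b (ext x)) (cons c (ext z)) := by
      intro x
      rw [sum_cons]
      refine Finset.sum_congr rfl fun c _ => Finset.sum_congr rfl fun z _ => ?_
      rw [Fin.prod_univ_succ, ext_cons, ext_cons]
      simp only [Fin.cons_zero, Fin.cons_succ]
    rw [Finset.sum_congr rfl fun x _ => h1 x, Finset.sum_comm]
    refine Finset.sum_congr rfl fun c _ => ?_
    rw [Finset.mul_sum]
    refine Finset.sum_congr rfl fun x _ => ?_
    rw [Finset.mul_sum]
    refine Finset.sum_congr rfl fun z _ => ?_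
    ring

/-- `R_h` with values `±1` -/
noncomputable def F (h : ℕ) (x : Fin (3 ^ h) → Bool) : ℝ := sg (Rh h x)

/-- the noise operator -/
noncomputable def T {n : ℕ} (r : ℝ) (f : (Fin n → Bool) → ℝ) (x : Fin n → Bool) : ℝ :=
  ∑ z, (∏ i, K r (x i) (z i)) * f z

/-- the noise stability -/
lemma stab (r : ℝ) (h : ℕ) :
    (1 / 2) ^ (3 ^ h) * ∑ x, F h x * T r (F h) x = mm^[h] r := by
  have h1 := law r h (fun b c => sg b * sg c)
  rw [W_eq] at h1
  have h2 : ∑ b : Bool, ∑ c : Bool, K (mm^[h] r) b c / 2 * (sg b * sg c) = mm^[h] r := by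
    simp only [Fintype.sum_bool, K, sg, if_true, Bool.false_eq_true, if_false]
    ring
  rw [h2] at h1
  rw [← h1, Finset.mul_sum]
  refine Finset.sum_congr rfl fun x _ => ?_
  unfold T
  rw [Finset.mul_sum, Finset.mul_sum]
  refine Finset.sum_congr rfl fun z _ => ?_
  rw [Finset.prod_div_distrib, Finset.prod_const, Finset.card_univ, Fintype.card_fin]
  unfold F Rh
  rw [one_div, inv_pow]
  field_simp

lemma abs_sg (b : Bool) : |sg b| = 1 := by cases b <;> simp [sg]

lemma K_nonneg {r : ℝ} (hr : |r| ≤ 1) (b c : Bool) : 0 ≤ K r b c := by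
  have := abs_le.1 hr
  cases b <;> cases c <;> simp [K, sg] <;> linarith

lemma K_sum (r : ℝ) (b : Bool) : K r b true + K r b false = 1 := by
  cases b <;> simp [K, sg] <;> ring

lemma K_sum' (r : ℝ) (c : Bool) : K r true c + K r false c = 1 := by
  cases c <;> simp [K, sg] <;> ring

lemma prod_K_sum {n : ℕ} (r : ℝ) (x : Fin n → Bool) : ∑ z : Fin n → Bool, ∏ i, K r (x i) (z i) = 1 := by
  have h2 := Finset.prod_univ_sum (fun _ : Fin n => (Finset.univ : Finset Bool))
    (fun i b => K r (x i) b)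
  rw [Fintype.piFinset_univ] at h2
  rw [← h2]
  apply Finset.prod_eq_one
  intro i _
  rw [Fintype.sum_bool, K_sum]

lemma abs_T_le {n : ℕ} {r : ℝ} (hr : |r| ≤ 1) {f : (Fin n → Bool) → ℝ} (hf : ∀ x, |f x| ≤ 1)
    (x : Fin n → Bool) : |T r f x| ≤ 1 := by
  unfold T
  refine (Finset.abs_sum_le_sum_abs _ _).trans ?_
  rw [← prod_K_sum r x]
  refine Finset.sum_le_sum fun z _ => ?_
  have h1 : 0 ≤ ∏ i, K r (x i) (z i) := Finset.prod_nonneg fun i _ => K_nonneg hr _ _
  rw [abs_mul, abs_of_nonneg h1]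
  exact mul_le_of_le_one_right h1 (hf z)

/-- a cylinder sum of `T r f` -/
lemma cyl_T {n : ℕ} (r : ℝ) (f : (Fin n → Bool) → ℝ) (S : Finset (Fin n)) (a : Fin n → Bool) :
    prob (T r f) (fun x => ∀ i ∈ S, x i = a i) = ∑ z, (∏ i ∈ S, K r (a i) (z i)) * f z := by
  classical
  have h1 : ∀ z : Fin n → Bool, (∏ i ∈ S, K r (a i) (z i)) * f z =
      ∑ x : Fin n → Bool, if ∀ i ∈ S, x i = a i then (∏ i, K r (x i) (z i)) * f z else 0 := by
    intro z
    rw [← sum_cyl S a (fun i b => K r b (z i)) (fun i => K_sum' r (z i))]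
    unfold prob
    rw [Finset.sum_mul]
    refine Finset.sum_congr rfl fun x _ => ?_
    by_cases hx : ∀ i ∈ S, x i = a i
    · rw [if_pos hx, if_pos hx]
    · rw [if_neg hx, if_neg hx, zero_mul]
  rw [Finset.sum_congr rfl fun z _ => h1 z, Finset.sum_comm]
  unfold prob
  refine Finset.sum_congr rfl fun x _ => ?_
  by_cases hx : ∀ i ∈ S, x i = a i
  · rw [if_pos hx]
    exact (Finset.sum_congr rfl fun z _ => if_pos hx).symm
  · rw [if_neg hx]
    exact (Finset.sum_eq_zero fun z _ => if_neg hx).symm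

end Pool.Agent.K7.H73.KM
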