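import Pool.Agent.K7.H73.KM.Defs

set_option autoImplicit false

/-!
# Decision trees and k-wise independent inputs
-/

namespace Pool.Agent.K7.H73.KM

/-- decision trees -/
inductive DT : Type
  | leaf (b : Bool) : DT
  | node (i : ℕ) (l r : DT) : DT

namespace DT

/-- the output -/
def eval : DT → (ℕ → Bool) → Bool
  | leaf b, _ => b
  | node i l r, x => if x i then r.eval x else l.eval x

/-- the probability that the output is `v` and that at most `k` bits are read -/
noncomputable def V (v : Bool) : ℕ → DT → ℝ
  | _, leaf b => if b = v then 1 else 0
  | 0, node _ _ _ => 0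
  | k + 1, node _ l r => (V v k l + V v k r) / 2

/-- the probability that more than `k` bits are read -/
noncomputable def D : ℕ → DT → ℝ
  | _, leaf _ => 0
  | 0, node _ _ _ => 1
  | k + 1, node _ l r => (D k l + D k r) / 2

/-- the average number of the bits which are read -/
noncomputable def C : DT → ℝ
  | leaf _ => 0
  | node _ l r => 1 + (C l + C r) / 2

/-- all the bits read are among the first `n`, are not in `S`, and are read once -/
def Fr (n : ℕ) : Finset ℕ → DT → Prop
  | _, leaf _ => True
  | S, node i l r => i < n ∧ i ∉ S ∧ Fr n (insert i S) l ∧ Fr n (insert i S) r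

lemma V_nonneg (v : Bool) : ∀ (k : ℕ) (t : DT), 0 ≤ V v k t := by
  intro k t
  induction t generalizing k with
  | leaf b => cases k <;> (simp only [V]; split_ifs <;> norm_num)
  | node i l r hl hr =>
    cases k with
    | zero => simp [V]
    | succ k => simp only [V]; linarith [hl k, hr k]

lemma D_le_one : ∀ (k : ℕ) (t : DT), D k t ≤ 1 := by
  intro k t
  induction t generalizing k with
  | leaf b => cases k <;> simp [D]
  | node i l r hl hr =>
    cases k with
    | zero => simp [D]
    | succ k => simp only [D]; linarith [hl k, hr k]

lemma C_nonneg : ∀ t : DT, 0 ≤ C t := by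
  intro t
  induction t with
  | leaf b => simp [C]
  | node i l r hl hr => simp only [C]; linarith

lemma V_add (k : ℕ) (t : DT) : V true k t + V false k t + D k t = 1 := by
  induction t generalizing k with
  | leaf b => cases k <;> cases b <;> simp [V, D]
  | node i l r hl hr =>
    cases k with
    | zero => simp [V, D]
    | succ k => simp only [V, D]; linarith [hl k, hr k]

lemma D_le (k : ℕ) (t : DT) : ((k : ℝ) + 1) * D k t ≤ C t := by
  induction t generalizing k with
  | leaf b => cases k <;> simp [D, C]
  | node i l r hl hr =>
    cases k with
    | zero =>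
      simp only [D, C]
      have := C_nonneg l
      have := C_nonneg r
      norm_num
      linarith
    | succ k =>
      simp only [D, C]
      push_cast
      have h1 := hl k
      have h2 := hr k
      have h3 := D_le_one k l
      have h4 := D_le_one k r
      nlinarith

/-- the main lemma -/
lemma le_prob {n k : ℕ} {Q : (Fin n → Bool) → ℝ} (hQ : A n k Q) (v : Bool) :
    ∀ (t : DT) (S : Finset ℕ) (a : ℕ → Bool) (m : ℕ), (∀ i ∈ S, i < n) → S.card + m ≤ k → Fr n S t →
      (1 / 2) ^ S.card * V v m t ≤
        prob Q (fun x => (∀ i ∈ S, ext x i = a i) ∧ t.eval (ext x) = v) := by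
  intro t
  induction t with
  | leaf b =>
    intro S a m hS hk _
    have h1 : V v m (leaf b) = if b = v then 1 else 0 := by cases m <;> rfl
    rw [h1]
    split_ifs with hb
    · have h2 : prob Q (fun x => (∀ i ∈ S, ext x i = a i) ∧ (leaf b).eval (ext x) = v) =
          prob Q (fun x => ∀ j ∈ Finset.univ.filter (fun j : Fin n => (j : ℕ) ∈ S), x j = a j) := by
        apply prob_congr
        intro x
        constructor
        · rintro ⟨h, -⟩ j hj
          have := h j (by simpa using hj)
          simpa [ext] using this
        · intro h
          refine ⟨fun i hi => ?_, hb⟩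
          have := h ⟨i, hS i hi⟩ (by simpa using hi)
          simpa [ext, hS i hi] using this
      have h3 : (Finset.univ.filter (fun j : Fin n => (j : ℕ) ∈ S)).card = S.card := by
        apply Finset.card_bij (fun (j : Fin n) _ => (j : ℕ))
        · intro j hj
          simpa using hj
        · intro j _ j' _ h
          exact Fin.ext h
        · intro i hi
          exact ⟨⟨i, hS i hi⟩, by simpa using hi, rfl⟩
      rw [h2, prob_cyl hQ _ (by rw [h3]; omega) (fun j => a j), h3, mul_one]
    · rw [mul_zero]
      exact prob_nonneg hQ.nonneg _
  | node i l r hl hr =>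
    intro S a m hS hk hF
    obtain ⟨hi, hiS, hFl, hFr⟩ := hF
    cases m with
    | zero =>
      simp only [V, mul_zero]
      exact prob_nonneg hQ.nonneg _
    | succ m =>
      have hc : (insert i S).card = S.card + 1 := Finset.card_insert_of_notMem hiS
      have hS' : ∀ j ∈ insert i S, j < n := by
        intro j hj
        rcases Finset.mem_insert.1 hj with rfl | h
        · exact hi
        · exact hS j h
      have h1 := hl (insert i S) (Function.update a i false) m hS' (by omega) hFl
      have h2 := hr (insert i S) (Function.update a i true) m hS' (by omega) hFr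
      have h3 : ∀ (x : Fin n → Bool) (b : Bool),
          (∀ j ∈ insert i S, ext x j = Function.update a i b j) ↔
            (ext x i = b ∧ ∀ j ∈ S, ext x j = a j) := by
        intro x b
        rw [Finset.forall_mem_insert, Function.update_self]
        refine and_congr Iff.rfl ?_
        refine forall_congr' fun j => ?_
        refine imp_congr_right fun hj => ?_
        rw [Function.update_of_ne (by rintro rfl; exact hiS hj)]
      have h4 : prob Q (fun x => (∀ j ∈ S, ext x j = a j) ∧ (node i l r).eval (ext x) = v) =
          prob Q (fun x => (∀ j ∈ insert i S, ext x j = Function.update a i false j) ∧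
            l.eval (ext x) = v) +
          prob Q (fun x => (∀ j ∈ insert i S, ext x j = Function.update a i true j) ∧
            r.eval (ext x) = v) := by
        apply prob_or
        · intro x
          rw [h3, h3]
          simp only [eval]
          cases ext x i <;> simp
        · intro x
          rw [h3, h3]
          cases ext x i <;> simp
      rw [h4]
      simp only [V]
      rw [hc, pow_succ] at h1 h2
      nlinarith

/-- the decision tree of the iterated majority: read the third block only if the first two differ -/
def T : ℕ → ℕ → (Bool → DT) → DT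
  | 0, o, c => node o (c false) (c true)
  | h + 1, o, c => T h o fun a => T h (o + 3 ^ h) fun b =>
      if a = b then c a else T h (o + 2 * 3 ^ h) c

lemma eval_T (h : ℕ) : ∀ (o : ℕ) (c : Bool → DT) (x : ℕ → Bool),
    (T h o c).eval x = (c (R h fun i => x (o + i))).eval x := by
  induction h with
  | zero =>
    intro o c x
    simp only [T, eval, R, add_zero]
    cases x o <;> simp
  | succ h ih =>
    intro o c x
    have e1 : (fun i => x (o + 3 ^ h + i)) = fun i => x (o + (3 ^ h + i)) := by
      funext i; rw [add_assoc]
    have e2 : (fun i => x (o + 2 * 3 ^ h + i)) = fun i => x (o + (2 * 3 ^ h + i)) := by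
      funext i; rw [add_assoc]
    simp only [T, ih, R, e1, e2]
    generalize R h (fun i => x (o + i)) = a
    generalize R h (fun i => x (o + (3 ^ h + i))) = b
    split_ifs with hab
    · subst hab
      cases a <;> cases R h (fun i => x (o + (2 * 3 ^ h + i))) <;> rfl
    · rw [ih, e2]
      generalize R h (fun i => x (o + (2 * 3 ^ h + i))) = d
      cases a <;> cases b <;> cases d <;> simp_all [maj]

lemma C_T (h : ℕ) : ∀ (o : ℕ) (c : Bool → DT),
    C (T h o c) = (5 / 2) ^ h + (C (c true) + C (c false)) / 2 := by
  induction h with
  | zero =>
    intro o c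
    simp only [T, C, pow_zero]
    ring
  | succ h ih =>
    intro o c
    simp only [T, ih]
    simp only [if_true, if_false, Bool.true_eq_false, Bool.false_eq_true, ih]
    ring

lemma Fr_T (n h : ℕ) : ∀ (o : ℕ) (c : Bool → DT) (S : Finset ℕ), o + 3 ^ h ≤ n →
    (∀ i ∈ S, ¬ (o ≤ i ∧ i < o + 3 ^ h)) →
    (∀ (b : Bool) (S' : Finset ℕ), (∀ i ∈ S', i ∈ S ∨ (o ≤ i ∧ i < o + 3 ^ h)) → Fr n S' (c b)) →
      Fr n S (T h o c) := by
  induction h with
  | zero =>
    intro o c S ho hS hc
    refine ⟨by omega, fun h => hS o h ⟨le_rfl, by simp⟩, hc _ _ ?_, hc _ _ ?_⟩ <;>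
    · intro i hi
      rcases Finset.mem_insert.1 hi with rfl | h
      · right; simp
      · left; exact h
  | succ h ih =>
    intro o c S ho hS hc
    have hp : 0 < 3 ^ h := by positivity
    have h3 : 3 ^ (h + 1) = 3 * 3 ^ h := by ring
    simp only [T]
    apply ih
    · omega
    · intro i hi h'
      exact hS i hi (by omega)
    · intro a S1 hS1
      apply ih
      · omega
      · intro i hi h'
        rcases hS1 i hi with h'' | h''
        · exact hS i h'' (by omega)
        · omega
      · intro b S2 hS2
        have h4 : ∀ i ∈ S2, i ∈ S ∨ (o ≤ i ∧ i < o + 2 * 3 ^ h) := by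
          intro i hi
          rcases hS2 i hi with h' | h'
          · rcases hS1 i h' with h'' | h''
            · exact Or.inl h''
            · right; omega
          · right; omega
        split_ifs with hab
        · apply hc
          intro i hi
          rcases h4 i hi with h' | h'
          · exact Or.inl h'
          · right; omega
        · apply ih
          · omega
          · intro i hi h'
            rcases h4 i hi with h'' | h''
            · exact hS i h'' (by omega)
            · omega
          · intro b' S3 hS3
            apply hc
            intro i hi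
            rcases hS3 i hi with h' | h'
            · rcases h4 i h' with h'' | h''
              · exact Or.inl h''
              · right; omega
            · right; omega

end DT

open DT in
/-- the upper bound for `ε` -/
theorem eps_le (h k : ℕ) (hk : 1 ≤ k) : eps (Rh h) k ≤ (5 / 2) ^ h / (k + 1) := by
  set t : DT := T h 0 leaf with ht
  have hev : ∀ x : Fin (3 ^ h) → Bool, t.eval (ext x) = Rh h x := by
    intro x
    rw [ht, eval_T]
    simp only [zero_add]
    rfl
  have hFr : Fr (3 ^ h) ∅ t := by
    rw [ht]
    apply Fr_T
    · simp
    · simp
    · intro b S' _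
      trivial
  have hC : C t = (5 / 2) ^ h := by
    rw [ht, C_T]
    simp [C]
  have hD : D k t ≤ (5 / 2) ^ h / (k + 1) := by
    rw [le_div_iff₀ (by positivity), mul_comm, ← hC]
    exact D_le k t
  have hb : ∀ v : Bool, ∀ Q, A (3 ^ h) k Q → V v k t ≤ prob Q (fun x => Rh h x = v) := by
    intro v Q hQ
    have := le_prob hQ v t ∅ (fun _ => true) k (by simp) (by simp) hFr
    simp only [Finset.card_empty, pow_zero, one_mul, Finset.notMem_empty, false_imp_iff,
      implies_true, true_and] at this
    refine this.trans (le_of_eq (prob_congr fun x => ?_))
    rw [hev]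
  have hne : (vals (Rh h) k).Nonempty := ⟨_, _, A_unif hk, rfl⟩
  have h1 : sSup (vals (Rh h) k) ≤ 1 - V false k t := by
    apply csSup_le hne
    rintro s ⟨Q, hQ, rfl⟩
    have h2 := hb false Q hQ
    have h3 : prob Q (fun _ => True) = prob Q (fun x => Rh h x = true) +
        prob Q (fun x => Rh h x = false) :=
      prob_or (fun x => by cases Rh h x <;> simp) (fun x => by cases Rh h x <;> simp)
    have h4 : prob Q (fun _ => True) = 1 := by
      simp [prob, hQ.total]
    linarith
  have h2 : V true k t ≤ sInf (vals (Rh h) k) := by
    apply le_csInf hne
    rintro s ⟨Q, hQ, rfl⟩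
    exact hb true Q hQ
  have h3 := V_add k t
  unfold eps
  linarith

end Pool.Agent.K7.H73.KM
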